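import Mathlib
import Pool.Agent.LibMatchDisc.Basic

namespace Pool.Agent.Results.MP_26893d_co.EuclideanUpperBound

open Finset

/-- The `l1`-norm on `ℝ^k`. -/
def l1 {k : ℕ} (v : Fin k → ℝ) : ℝ := ∑ l, |v l|

/-- The Euclidean norm on `ℝ^k`. -/
noncomputable def l2 {k : ℕ} (v : Fin k → ℝ) : ℝ := Real.sqrt (∑ l, (v l) ^ 2)

/-- The deviation vector `h(M) - h(K_{n,n}) / n` of the perfect matching `M` of `K_{n,n}` given by
the permutation `σ` (row `i` is matched to column `σ i`), for the labelling `h` of the edges. -/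
noncomputable def dev {n k : ℕ} (h : Fin n → Fin n → Fin k → ℝ) (σ : Equiv.Perm (Fin n)) :
    Fin k → ℝ :=
  (∑ i, h i (σ i)) - (1 / (n : ℝ)) • ∑ i, ∑ j, h i j

lemma l1_le {k : ℕ} (v : Fin k → ℝ) (c : ℝ) (hc : l2 v ≤ c) : l1 v ≤ Real.sqrt k * c := by
  have h1 : (l1 v) ^ 2 ≤ k * ∑ l, (v l) ^ 2 := by
    have := sq_sum_le_card_mul_sum_sq (s := (univ : Finset (Fin k))) (f := fun l => |v l|)
    simpa [l1, sq_abs] using this
  have h2 : l1 v ≤ Real.sqrt (k * ∑ l, (v l) ^ 2) := Real.le_sqrt_of_sq_le h1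
  rw [Real.sqrt_mul (Nat.cast_nonneg k)] at h2
  exact h2.trans (mul_le_mul_of_nonneg_left hc (Real.sqrt_nonneg _))

/-- Every labelling of `K_{n,n}` by vectors of Euclidean norm at most one (in particular every
labelling by vectors of `l1`-norm at most one) has a perfect matching whose deviation has
Euclidean norm at most `70 * sqrt k`, hence `l1`-norm at most `70 * k`. -/
theorem result (n k : ℕ) (h : Fin n → Fin n → Fin k → ℝ) (hh : ∀ i j, l2 (h i j) ≤ 1) :
    ∃ σ : Equiv.Perm (Fin n), l2 (dev h σ) ≤ 70 * Real.sqrt k ∧ l1 (dev h σ) ≤ 70 * k := by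
  let H : Fin n → Fin n → EuclideanSpace ℝ (Fin k) := fun i j => WithLp.toLp 2 (h i j)
  have hH : ∀ i j, ‖H i j‖ ≤ 1 := by
    intro i j
    rw [EuclideanSpace.norm_eq]
    simpa [H, l2] using hh i j
  obtain ⟨σ, hσ⟩ := Pool.Agent.LibMatchDisc.main_bound H hH
  rw [finrank_euclideanSpace_fin, EuclideanSpace.norm_eq] at hσ
  have h1 : l2 (dev h σ) ≤ 70 * Real.sqrt k := by
    refine le_trans (le_of_eq ?_) hσ
    unfold l2 dev
    congr 1
    apply Finset.sum_congr rfl
    intro l _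
    rw [Real.norm_eq_abs, sq_abs]
    congr 1
    simp [H]
  refine ⟨σ, h1, ?_⟩
  refine (l1_le _ _ h1).trans (le_of_eq ?_)
  have : Real.sqrt k * Real.sqrt k = k := Real.mul_self_sqrt (Nat.cast_nonneg k)
  linear_combination 70 * this

end Pool.Agent.Results.MP_26893d_co.EuclideanUpperBound
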