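import Mathlib

namespace Pool.Agent.Results.MP_26893d_co.LinearLowerBound

open Finset

/-- The `l1`-norm on `ℝ^k`. -/
def l1 {k : ℕ} (v : Fin k → ℝ) : ℝ := ∑ l, |v l|

/-- The error of the perfect matching of `K_{n,n}` given by the permutation `σ` (row `i` is
matched to column `σ i`), for the labelling `h` of the edges. -/
noncomputable def err {n k : ℕ} (h : Fin n → Fin n → Fin k → ℝ) (σ : Equiv.Perm (Fin n)) : ℝ :=
  l1 ((∑ i, h i (σ i)) - (1 / (n : ℝ)) • ∑ i, ∑ j, h i j)

/-- Alternating signs. -/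
def sg (j : ℕ) : ℝ := (-1) ^ j

lemma sum_sg (m : ℕ) : ∑ j : Fin (m + m), sg j.val = 0 := by
  rw [Fin.sum_univ_eq_sum_range (fun j => sg j)]
  induction m with
  | zero => simp
  | succ m ih =>
    have e : m + 1 + (m + 1) = (m + m) + 1 + 1 := by ring
    rw [e, Finset.sum_range_succ, Finset.sum_range_succ, ih]
    unfold sg
    ring

lemma abs_sg (j : ℕ) : |sg j| = 1 := by
  unfold sg
  rw [abs_pow]
  simp

/-- The labelling: the edge `(i, j)` gets the label `(-1)^j e_i` when `i < k`, else `0`. -/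
def lbl (n k : ℕ) (i j : Fin n) : Fin k → ℝ := fun l => if l.val = i.val then sg j.val else 0

lemma lbl_norm (n k : ℕ) (i j : Fin n) : l1 (lbl n k i j) ≤ 1 := by
  unfold l1 lbl
  by_cases hi : i.val < k
  · rw [Finset.sum_eq_single (⟨i.val, hi⟩ : Fin k)]
    · simp [abs_sg]
    · intro b _ hb
      have : b.val ≠ i.val := fun h => hb (Fin.ext h)
      simp [this]
    · intro h
      exact absurd (Finset.mem_univ _) h
  · rw [Finset.sum_eq_zero]
    · norm_num
    · intro l _
      have : l.val ≠ i.val := by have := l.2; omega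
      simp [this]

lemma main (n k : ℕ) (hkn : k ≤ n) (hn : Even n) (σ : Equiv.Perm (Fin n)) :
    err (lbl n k) σ = k := by
  obtain ⟨m, rfl⟩ := hn
  unfold err l1
  have h1 : ∀ l : Fin k, |((∑ i, lbl (m + m) k i (σ i)) -
      (1 / ((m + m : ℕ) : ℝ)) • ∑ i, ∑ j, lbl (m + m) k i j) l| = 1 := by
    intro l
    have hl : l.val < m + m := lt_of_lt_of_le l.2 hkn
    have e1 : (∑ i, lbl (m + m) k i (σ i)) l = sg (σ ⟨l.val, hl⟩).val := by
      rw [Finset.sum_apply, Finset.sum_eq_single (⟨l.val, hl⟩ : Fin (m + m))]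
      · simp [lbl]
      · intro b _ hb
        have : l.val ≠ b.val := fun h => hb (Fin.ext h.symm)
        simp [lbl, this]
      · intro h
        exact absurd (Finset.mem_univ _) h
    have e2 : (∑ i, ∑ j, lbl (m + m) k i j) l = 0 := by
      rw [Finset.sum_apply]
      apply Finset.sum_eq_zero
      intro i _
      rw [Finset.sum_apply]
      by_cases hi : l.val = i.val
      · have : ∀ j, lbl (m + m) k i j l = sg j.val := by
          intro j
          simp [lbl, hi]
        simp only [this]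
        exact sum_sg m
      · have : ∀ j, lbl (m + m) k i j l = 0 := by
          intro j
          simp [lbl, hi]
        simp [this]
    rw [Pi.sub_apply, Pi.smul_apply, e1, e2, smul_zero, sub_zero, abs_sg]
  rw [Finset.sum_congr rfl (fun l _ => h1 l)]
  simp

/-- For all `k ≤ n` with `n` even there is a labelling of `K_{n,n}` with labels of `l1`-norm at
most one for which every perfect matching has error at least (indeed exactly) `k`; in particular
no absolute constant `C` gives the bound `C * sqrt k`. -/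
theorem result :
    (∀ n k : ℕ, k ≤ n → Even n → ∃ h : Fin n → Fin n → Fin k → ℝ,
      (∀ i j, l1 (h i j) ≤ 1) ∧ ∀ σ : Equiv.Perm (Fin n), (k : ℝ) ≤ err h σ) ∧
    ¬ ∃ C : ℝ, ∀ n k : ℕ, 1 ≤ n → 1 ≤ k → ∀ h : Fin n → Fin n → Fin k → ℝ,
      (∀ i j, l1 (h i j) ≤ 1) → ∃ σ : Equiv.Perm (Fin n), err h σ ≤ C * Real.sqrt k := by
  have key : ∀ n k : ℕ, k ≤ n → Even n → ∃ h : Fin n → Fin n → Fin k → ℝ,
      (∀ i j, l1 (h i j) ≤ 1) ∧ ∀ σ : Equiv.Perm (Fin n), (k : ℝ) ≤ err h σ := by
    intro n k hkn hn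
    exact ⟨lbl n k, lbl_norm n k, fun σ => (main n k hkn hn σ).ge⟩
  refine ⟨key, ?_⟩
  rintro ⟨C, hC⟩
  obtain ⟨m, hm⟩ := exists_nat_gt (max C 1)
  have hmC : C < m := lt_of_le_of_lt (le_max_left _ _) hm
  have hm1 : (1 : ℝ) < m := lt_of_le_of_lt (le_max_right _ _) hm
  have hm1' : 1 < m := by exact_mod_cast hm1
  -- take `k = m^2`, `n = 2 m^2`
  have hpos : 1 ≤ m * m := by nlinarith
  obtain ⟨h, hh, hσ⟩ := key (m * m + m * m) (m * m) (by omega) ⟨m * m, rfl⟩
  obtain ⟨σ, hσ'⟩ := hC (m * m + m * m) (m * m) (by omega) hpos h hh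
  have h1 := hσ σ
  have h2 : Real.sqrt ((m * m : ℕ) : ℝ) = m := by
    push_cast
    exact Real.sqrt_mul_self (Nat.cast_nonneg m)
  rw [h2] at hσ'
  push_cast at h1
  nlinarith

end Pool.Agent.Results.MP_26893d_co.LinearLowerBound
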